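import Pool.Agent.W477.GM.Stms

/-!
# Separation and power set are forced in symmetric systems
-/

set_option linter.all false
set_option maxHeartbeats 1000000

namespace Pool.Agent.W477.GM.W418Zf2

open Pool.Agent.W477.GM

variable {P : Type 1} [PartialOrder P] [OrderTop P]

theorem common_supp (h3 : P_HS) (S : SysData P) (hS : SysAx S) (v : ℕ → Nm P)
    (hv : ∀ i, HS S (v i)) (n : ℕ) :
    ∃ e, ∀ g, g ∈ S.fix e → ∀ i, i < n → ∀ p, feq (act g (v i)) (v i) p := by
  induction n with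
  | zero =>
    obtain ⟨e⟩ := hS.ne
    exact ⟨e, fun g _ i hi => absurd hi (Nat.not_lt_zero i)⟩
  | succ n ih =>
    obtain ⟨e, he⟩ := ih
    obtain ⟨e1, he1⟩ := (h3 P S hS).supp (v n) (hv n)
    obtain ⟨e2, he2⟩ := hS.dir e e1
    refine ⟨e2, fun g hg i hi p => ?_⟩
    rcases Nat.lt_succ_iff_lt_or_eq.1 hi with hi | rfl
    · exact he g (he2 g hg).1 i hi p
    · exact he1 g (he2 g hg).2 p

theorem gen (h : P_EQ) (h1 : P_ACT) (h2 : P_FC) (h3 : P_HS) (h4 : P_SET) (h5 : P_DEC)
    (S : SysData P) (hS : SysAx S) (ψ : Fm) (w : ℕ → Nm P) (hw : ∀ i, HS S (w i))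
    (he : ∃ e, ∀ g, g ∈ S.fix e → ∀ i, ∀ p, feq (act g (w i)) (w i) p) (i0 : ℕ)
    (κ : Type) (z : κ → Nm P) (hz : ∀ k, HS S (z k))
    (hc : ∀ y p, HS S y → Fc (HS S) ψ (Function.update w i0 y) p →
      ∃ q, q ≤ p ∧ ∃ k, feq y (z k) q) :
    ∃ Y, HS S Y ∧ ∀ y p, HS S y → (fmem y Y p ↔ Fc (HS S) ψ (Function.update w i0 y) p) := by
  have eq := h P
  have fc := h2 P (HS S)
  have hs := h3 P S hS
  refine h4 P S hS κ z (fun y p => Fc (HS S) ψ (Function.update w i0 y) p) hz ?_ ?_ ?_ ?_ ?_ hc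
  · exact fun y p q _ hq hF => fc.mono _ _ _ _ hq hF
  · exact fun y p _ hF => fc.dense _ _ _ hF
  · intro y y' p _ _ hy hF
    refine fc.congr _ _ _ _ (fun i => ?_) hF
    by_cases hi : i = i0
    · subst hi; simpa using hy
    · simpa [Function.update_of_ne hi] using eq.refl (w i) p
  · obtain ⟨e, he⟩ := he
    refine ⟨e, fun g hg y p _ hF => ?_⟩
    have hgG : g ∈ S.G := hS.fsub e g hg
    have h6 := (fc.equiv g (fun x hx => hs.act g hgG x hx)
      (fun x hx => hs.act g⁻¹ (hS.inv g hgG) x hx) ψ (Function.update w i0 y) p).2 hF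
    refine fc.congr _ _ _ _ (fun i => ?_) h6
    by_cases hi : i = i0
    · subst hi; simpa using eq.refl _ _
    · simpa [Function.update_of_ne hi] using he g hg i (g p)
  · obtain ⟨a1, ha1⟩ := hs.livs κ z hz
    obtain ⟨a2, ha2⟩ := hs.livs ℕ w hw
    refine ⟨max a1 a2, fun k p hF => (h5 P S hS).1 _ _ _ _ (fun i => ?_) hF⟩
    by_cases hi : i = i0
    · subst hi
      simpa using hs.liv_mono _ _ _ (le_max_left a1 a2) (ha1 k)
    · simpa [Function.update_of_ne hi] using hs.liv_mono _ _ _ (le_max_right a1 a2) (ha2 i)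

theorem sep (h : P_EQ) (h1 : P_ACT) (h2 : P_FC) (h3 : P_HS) (h4 : P_SET) (h5 : P_DEC)
    (S : SysData P) (hS : SysAx S) (φ : Fm) (m : ℕ) (hb : φ.bd ≤ m) (hm : 1 ≤ m)
    (v : ℕ → Nm P) (hv : ∀ i, HS S (v i)) (p : P) : Fc (HS S) (.axSep φ m) v p := by
  have eq := h P
  have fc := h2 P (HS S)
  have hs := h3 P S hS
  set w : ℕ → Nm P := fun i => if i < m + 1 then v i else v m with hwdef
  have hw : ∀ i, HS S (w i) := by
    intro i
    simp only [hwdef]
    split_ifs
    · exact hv i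
    · exact hv m
  have hwm : w m = v m := by simp [hwdef]
  obtain ⟨e, he⟩ := common_supp h3 S hS v hv (m + 1)
  have he' : ∃ e, ∀ g, g ∈ S.fix e → ∀ i, ∀ p, feq (act g (w i)) (w i) p := by
    refine ⟨e, fun g hg i p => ?_⟩
    simp only [hwdef]
    split_ifs with hi
    · exact he g hg i hi p
    · exact he g hg m (Nat.lt_succ_self m) p
  have h0m : m ≠ 0 := by omega
  have key : ∃ Y, HS S Y ∧ ∀ y p, HS S y → (fmem y Y p ↔
      Fc (HS S) (.and (.mem 0 m) φ) (Function.update w 0 y) p) := by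
    cases hx : v m with
    | mk ι U x =>
      have hx' : HS S (Nm.mk ι U x) := hx ▸ hv m
      refine gen h h1 h2 h3 h4 h5 S hS (.and (.mem 0 m) φ) w hw he' 0 ι x
        (hs.child ι U x hx') ?_
      intro y p hy hF
      have h7 := ((fc.and _ _ _ _).1 hF).1
      have h8 : fmem y (Nm.mk ι U x) p := by
        have h9 : fmem (Function.update w 0 y 0) (Function.update w 0 y m) p := h7
        rw [Function.update_self, Function.update_of_ne h0m, hwm, hx] at h9
        exact h9
      obtain ⟨r, hr, j, _, hj⟩ := h8 p le_rfl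
      exact ⟨r, hr, j, hj⟩
  obtain ⟨Y, hY, hYF⟩ := key
  refine (fc.ex _ _ _ _).2 fun q _ => ⟨q, le_rfl, Y, hY, ?_⟩
  intro z hz
  refine (fc.iff _ _ _ _).2 fun r _ => ?_
  have h10 : Fc (HS S) (.mem 0 (m + 1))
      (Function.update (Function.update v (m + 1) Y) 0 z) r ↔ fmem z Y r := by
    show fmem (Function.update (Function.update v (m + 1) Y) 0 z 0)
      (Function.update (Function.update v (m + 1) Y) 0 z (m + 1)) r ↔ _
    rw [Function.update_self, Function.update_of_ne (Nat.succ_ne_zero m), Function.update_self]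
  have h11 : Fc (HS S) (.and (.mem 0 m) φ)
      (Function.update (Function.update v (m + 1) Y) 0 z) r ↔
      Fc (HS S) (.and (.mem 0 m) φ) (Function.update w 0 z) r := by
    refine fc.bd _ _ _ _ fun i hi => ?_
    have hi' : i < m + 1 := by
      have : (Fm.and (.mem 0 m) φ).bd ≤ m + 1 := by
        simp only [Fm.and, Fm.neg, Fm.bd]
        omega
      omega
    by_cases hi0 : i = 0
    · subst hi0; simp
    · rw [Function.update_of_ne hi0, Function.update_of_ne hi0,
        Function.update_of_ne (by omega : i ≠ m + 1)]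
      simp only [hwdef]
      rw [if_pos hi']
  rw [h10, h11]
  exact hYF z r hz

theorem pow (h : P_EQ) (h1 : P_ACT) (h2 : P_FC) (h3 : P_HS) (h4 : P_SET) (h5 : P_DEC)
    (S : SysData P) (hS : SysAx S) (hP : Pow S)
    (v : ℕ → Nm P) (hv : ∀ i, HS S (v i)) (p : P) : Fc (HS S) .axPow v p := by
  have eq := h P
  have fc := h2 P (HS S)
  have hs := h3 P S hS
  obtain ⟨κ, z, hz, hcov⟩ := hP (v 0) (hv 0)
  have hFc : ∀ (u : ℕ → Nm P) (y : Nm P) (q : P), u 0 = v 0 → u 2 = y →
      (Fc (HS S) (.all 3 (.imp (.mem 3 2) (.mem 3 0))) u q ↔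
        ∀ t, HS S t → ∀ r, r ≤ q → fmem t y r → fmem t (v 0) r) := by
    intro u y q hu0 hu2
    show (∀ t, HS S t → ∀ r, r ≤ q → fmem (Function.update u 3 t 3) (Function.update u 3 t 2) r →
      fmem (Function.update u 3 t 3) (Function.update u 3 t 0) r) ↔ _
    have e1 : ∀ t, Function.update u 3 t 3 = t := fun t => Function.update_self _ _ _
    have e2 : ∀ t, Function.update u 3 t 2 = y := fun t => by
      rw [Function.update_of_ne (by decide), hu2]
    have e3 : ∀ t, Function.update u 3 t 0 = v 0 := fun t => by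
      rw [Function.update_of_ne (by decide), hu0]
    simp only [e1, e2, e3]
  obtain ⟨e, he⟩ := hs.supp (v 0) (hv 0)
  have key := gen h h1 h2 h3 h4 h5 S hS (.all 3 (.imp (.mem 3 2) (.mem 3 0))) (fun _ => v 0)
    (fun _ => hv 0) ⟨e, fun g hg _ p => he g hg p⟩ 2 κ z hz (by
      intro y q hy hF
      rw [hFc _ y q (by rw [Function.update_of_ne (by decide)]) (Function.update_self _ _ _)] at hF
      exact hcov y q hy hF)
  obtain ⟨Y, hY, hYF⟩ := key
  refine (fc.ex _ _ _ _).2 fun q _ => ⟨q, le_rfl, Y, hY, ?_⟩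
  intro y hy
  refine (fc.iff _ _ _ _).2 fun r _ => ?_
  have h10 : Fc (HS S) (.mem 2 1)
      (Function.update (Function.update v 1 Y) 2 y) r ↔ fmem y Y r := by
    show fmem (Function.update (Function.update v 1 Y) 2 y 2)
      (Function.update (Function.update v 1 Y) 2 y 1) r ↔ _
    rw [Function.update_self, Function.update_of_ne (by decide), Function.update_self]
  rw [h10, hFc _ y r (by rw [Function.update_of_ne (by decide), Function.update_of_ne (by decide)])
    (Function.update_self _ _ _), hYF y r hy,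
    hFc _ y r (by rw [Function.update_of_ne (by decide)]) (Function.update_self _ _ _)]

theorem zf2_holds (h : P_EQ) (h1 : P_ACT) (h2 : P_FC) (h3 : P_HS) (h4 : P_SET) (h5 : P_DEC) :
    P_ZF2 := by
  intro P _ _ S hS
  exact ⟨fun φ m hb hm v hv p => sep h h1 h2 h3 h4 h5 S hS φ m hb hm v hv p,
    fun hP v hv p => pow h h1 h2 h3 h4 h5 S hS hP v hv p⟩

end Pool.Agent.W477.GM.W418Zf2
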